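import Pool.Agent.Helper53.SH.Em
import Pool.Agent.Helper4.LT.Gd
import Pool.Agent.Helper93.LX.Ve

/-!
PROJECT ALLQ (MP_274814_nt), family side: a theta function on the field of the `q`-th roots of
unity gives a function on `C^s` with normalised quasi-periods.
-/

set_option autoImplicit false

namespace Pool.Agent.Helper53.SH

open Finset Complex Pool.Agent.Helper34.LT LTG Pool.Agent.Helper34.LU Pool.Agent.Helper49.SH
open Pool.Agent.Helper59.LT (zt_pow zt_prim zt_ne zt_conj)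

noncomputable section

section gen

variable {ι : Type} [Fintype ι]

theorem Eb_add_left (E : ι → ι → ℚ) (a b w : ι → ℂ) : Eb E (a + b) w = Eb E a w + Eb E b w := by
  simp [Eb, mul_add, add_mul, Finset.sum_add_distrib]

theorem Eb_add_right (E : ι → ι → ℚ) (w a b : ι → ℂ) : Eb E w (a + b) = Eb E w a + Eb E w b := by
  simp [Eb, mul_add, Finset.sum_add_distrib]

theorem Eb_smul_left (E : ι → ι → ℚ) (c : ℂ) (a w : ι → ℂ) : Eb E (c • a) w = c * Eb E a w := by
  unfold Eb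
  rw [Finset.mul_sum]
  refine Finset.sum_congr rfl fun i _ => ?_
  rw [Finset.mul_sum]
  refine Finset.sum_congr rfl fun j _ => ?_
  rw [Pi.smul_apply, smul_eq_mul]
  ring

theorem Eb_smul_right (E : ι → ι → ℚ) (c : ℂ) (a w : ι → ℂ) : Eb E w (c • a) = c * Eb E w a := by
  unfold Eb
  rw [Finset.mul_sum]
  refine Finset.sum_congr rfl fun i _ => ?_
  rw [Finset.mul_sum]
  refine Finset.sum_congr rfl fun j _ => ?_
  rw [Pi.smul_apply, smul_eq_mul]
  ring

/-- shift along an antiholomorphic vector -/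
theorem shift {E : ι → ι → ℚ} {N : Submodule ℂ (ι → ℂ)} {F : (ι → ℂ) → ℂ} (hP : Pol E N)
    (hF : AT E N F) (e : ι → ℂ) (he : e ∈ N) (w : ι → ℂ) :
    F (w + e) = exp (Real.pi * I * Eb E e w) * F w := by
  have h1 : ∀ t : ℂ, HasDerivAt
      (fun t : ℂ => F (w + t • e) * exp (-(Real.pi * I * t * Eb E e w))) 0 t := by
    intro t
    have h2 : HasDerivAt (fun t : ℂ => w + t • e) e t := by
      simpa using ((hasDerivAt_id t).smul_const e).const_add w
    have h3 := (hF.diff (w + t • e)).hasFDerivAt.comp_hasDerivAt t h2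
    rw [hF.hol e he] at h3
    have h4 : HasDerivAt (fun t : ℂ => -(Real.pi * I * t * Eb E e w))
        (-(Real.pi * I * Eb E e w)) t := by
      have h5 := (((hasDerivAt_id t).const_mul (Real.pi * I : ℂ)).mul_const (Eb E e w)).neg
      rw [mul_one] at h5
      exact h5
    have h6 := h3.mul h4.cexp
    refine h6.congr_deriv ?_
    rw [Eb_add_right, Eb_smul_right, hP.iso e he e he]
    simp only [Function.comp]
    ring
  have h7 := is_const_of_deriv_eq_zero (fun t => (h1 t).differentiableAt) (fun t => (h1 t).deriv)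
    1 0
  simp only [one_smul, zero_smul, add_zero, mul_one, mul_zero, zero_mul, neg_zero, exp_zero] at h7
  rw [← h7, mul_comm, mul_assoc, ← exp_add]
  simp

theorem qp_gen {E : ι → ι → ℚ} {N : Submodule ℂ (ι → ℂ)} {F : (ι → ℂ) → ℂ} (hP : Pol E N)
    (hF : AT E N F) : ∃ k : ℕ, 1 ≤ k ∧ ∀ (l : ι → ℤ) (a h w : ι → ℂ), a ∈ N → zv l = a + h →
      Eb E h w = 0 → F (w + (k : ℂ) • h) =
        exp (-(2 * Real.pi * I * k * Eb E a w) + -(Real.pi * I * k ^ 2 * Eb E a h)) * F w := by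
  obtain ⟨k, hk, hper⟩ := hF.per
  refine ⟨k, hk, fun l a h w ha hl hz => ?_⟩
  have h1 : w + (k : ℂ) • h = (w + (k : ℂ) • zv l) + (-(k : ℂ)) • a := by
    rw [hl, smul_add, neg_smul]
    abel
  rw [h1, shift hP hF _ (N.smul_mem _ ha), hper l w, ← mul_assoc, ← exp_add]
  congr 2
  rw [Eb_add_right, Eb_smul_left, Eb_smul_left, Eb_smul_right, hl, Eb_add_right, Eb_add_left,
    hP.iso a ha a ha, hz]
  ring

end gen

theorem sum_UU_sub (q : ℕ) (f : ℕ → ℂ) : ∑ u ∈ UU q, f (q - u) = ∑ u ∈ UU q, f u :=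
  Finset.sum_nbij' (fun u => q - u) (fun u => q - u) (fun _ hu => UU_sub hu)
    (fun _ hu => UU_sub hu) (fun _ hu => UU_sub_sub hu) (fun _ hu => UU_sub_sub hu)
    (fun _ _ => rfl)

theorem KForm' {q : ℕ} {ξ : Polynomial ℚ} {E : Iq q → Iq q → ℚ} (hK : KForm q ξ E)
    (w w' : Iq q → ℂ) : Eb E w w' =
      ∑ v ∈ UU q, Polynomial.aeval (zt q ^ (q - v)) ξ * em q (q - v) w * em q v w' := by
  rw [hK w w', ← sum_UU_sub q]
  refine Finset.sum_congr rfl fun u hu => ?_
  rw [UU_sub_sub hu]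

theorem HS_sub {q : ℕ} {s : Finset ℕ} (hs : HS q s) : s ⊆ UU q := by
  intro u hu
  obtain ⟨h1, h2, h3⟩ := hs.mem u hu
  exact mem_UU.2 ⟨⟨h1, by omega⟩, h3⟩

theorem HS_half {q : ℕ} {s : Finset ℕ} (hs : HS q s) {u : ℕ} (hu : u ∈ UU q) :
    u ∈ s ↔ q - u ∉ s :=
  hs.half u (mem_UU.1 hu).1.1 (by have := (mem_UU.1 hu).1; omega) (mem_UU.1 hu).2

/-- the holomorphic vector with coordinates `y` -/
def vs (q : ℕ) (s : Finset ℕ) (y : s → ℂ) : Iq q → ℂ := ∑ u : s, y u • ep q u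

open Classical in
theorem em_vs {q : ℕ} (hq : 2 ≤ q) (s : Finset ℕ) (y : s → ℂ) (v : ℕ) (hv : v ∈ UU q) :
    em q v (vs q s y) = if h : v ∈ s then y ⟨v, h⟩ else 0 := by
  have h1 : vs q s y = ∑ u ∈ s, (if h : u ∈ s then y ⟨u, h⟩ else 0) • ep q u := by
    unfold vs
    rw [← Finset.sum_coe_sort s (fun u => (if h : u ∈ s then y ⟨u, h⟩ else 0) • ep q u)]
    refine Finset.sum_congr rfl fun u _ => ?_
    rw [dif_pos u.2]
  rw [h1, em_sum_ep q hq _ s v hv]
  by_cases h : v ∈ s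
  · rw [if_pos h]
  · rw [if_neg h, dif_neg h]

/-- eigenvectors of the multiplication by `ζ` -/
theorem mv_zM_ep (q : ℕ) (hq : 2 ≤ q) (u : ℕ) :
    mv (zM q) (ep q u) = zt q ^ u • ep q u := by
  refine em_ext q hq _ _ fun v hv => ?_
  rw [em_zM q v (by omega) (mem_UU.1 hv).2, em_smul, ep_spec q hq u v hv]
  by_cases h : v = u
  · rw [h]
  · rw [if_neg h, mul_zero, mul_zero]

theorem vs_add (q : ℕ) (s : Finset ℕ) (y y' : s → ℂ) : vs q s (y + y') = vs q s y + vs q s y' := by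
  unfold vs
  rw [← Finset.sum_add_distrib]
  exact Finset.sum_congr rfl fun u _ => by rw [Pi.add_apply, add_smul]

theorem vs_smul (q : ℕ) (s : Finset ℕ) (c : ℂ) (y : s → ℂ) :
    vs q s (c • y) = c • vs q s y := by
  unfold vs
  rw [Finset.smul_sum]
  exact Finset.sum_congr rfl fun u _ => by rw [Pi.smul_apply, smul_eq_mul, mul_smul]

/-- the holomorphic vectors are isotropic -/
theorem Eb_vs_vs {q : ℕ} {s : Finset ℕ} (hs : HS q s) {ξ : Polynomial ℚ} {E : Iq q → Iq q → ℚ}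
    (hK : KForm q ξ E) (y y' : s → ℂ) : Eb E (vs q s y) (vs q s y') = 0 := by
  have hq : 2 ≤ q := by have := hs.three; omega
  rw [hK]
  refine Finset.sum_eq_zero fun u hu => ?_
  by_cases h : u ∈ s
  · rw [em_vs hq s y' _ (UU_sub hu), dif_neg ((HS_half hs hu).1 h), mul_zero]
  · rw [em_vs hq s y _ hu, dif_neg h, mul_zero, zero_mul]

theorem Eb_vs {q : ℕ} {s : Finset ℕ} (hs : HS q s) {ξ : Polynomial ℚ} {E : Iq q → Iq q → ℚ}
    (hK : KForm q ξ E) (a : Iq q → ℂ) (y : s → ℂ) : Eb E a (vs q s y) =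
      ∑ u : s, Polynomial.aeval (zt q ^ (q - (u : ℕ))) ξ * em q (q - (u : ℕ)) a * y u := by
  classical
  have hq : 2 ≤ q := by have := hs.three; omega
  rw [KForm' hK, ← Finset.sum_subset (HS_sub hs), ← Finset.sum_coe_sort s]
  · refine Finset.sum_congr rfl fun u _ => ?_
    rw [em_vs hq s y _ (HS_sub hs u.2), dif_pos u.2]
  · intro u hu h
    rw [em_vs hq s y _ hu, dif_neg h, mul_zero]

/-- the antiholomorphic part of a vector -/
def va (q : ℕ) (s : Finset ℕ) (w : Iq q → ℂ) : Iq q → ℂ :=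
  w - vs q s (fun u => em q u w)

theorem em_va {q : ℕ} (hq : 2 ≤ q) (s : Finset ℕ) (w : Iq q → ℂ) (v : ℕ) (hv : v ∈ UU q) :
    em q v (va q s w) = if v ∈ s then 0 else em q v w := by
  classical
  unfold va
  rw [em_sub, em_vs hq s _ v hv]
  by_cases h : v ∈ s
  · rw [dif_pos h, if_pos h, sub_self]
  · rw [dif_neg h, if_neg h, sub_zero]

theorem va_mem {q : ℕ} {s : Finset ℕ} (hs : HS q s) (w : Iq q → ℂ) : va q s w ∈ Ns q s := by
  intro u hu
  have hq : 2 ≤ q := by have := hs.three; omega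
  rw [em_va hq s w u (HS_sub hs hu), if_pos hu]

/-- the value of `ξ` at `ζ^(q-u)` is not zero for `u` in the type -/
theorem xi_ne {q : ℕ} {s : Finset ℕ} (hs : HS q s) {ξ : Polynomial ℚ} {E : Iq q → Iq q → ℚ}
    (hK : KForm q ξ E) (hP : Pol E (Ns q s)) {u : ℕ} (hu : u ∈ s) :
    Polynomial.aeval (zt q ^ (q - u)) ξ ≠ 0 := by
  have hq : 2 ≤ q := by have := hs.three; omega
  have hU := HS_sub hs hu
  have hV := UU_sub hU
  intro h0
  have hmem : ep q (q - u) ∈ Ns q s := by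
    intro v hv
    rw [ep_spec q hq (q - u) v (HS_sub hs hv), if_neg]
    rintro rfl
    exact (HS_half hs hU).1 hu hv
  have hne : ep q (q - u) ≠ 0 := by
    intro h1
    have h2 := ep_spec q hq (q - u) _ hV
    rw [h1, em_zero, if_pos rfl] at h2
    exact zero_ne_one h2
  have h3 := hP.pos _ hmem hne
  rw [cj_ep q (q - u) hq hV, UU_sub_sub hU] at h3
  have h4 : Eb E (ep q (q - u)) (ep q u) = 0 := by
    rw [hK]
    refine Finset.sum_eq_zero fun v hv => ?_
    by_cases h : v = q - u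
    · rw [h, h0, zero_mul, zero_mul]
    · rw [ep_spec q hq (q - u) v hv, if_neg h, mul_zero, zero_mul]
  rw [h4, mul_zero, neg_zero, zero_re] at h3
  exact lt_irrefl _ h3

/-- (c) the quasi-periods of a theta function in the holomorphic coordinates -/
theorem qps {q : ℕ} {s : Finset ℕ} (hs : HS q s) {ξ : Polynomial ℚ} {E : Iq q → Iq q → ℚ}
    (hK : KForm q ξ E) (hP : Pol E (Ns q s)) {F : (Iq q → ℂ) → ℂ} (hF : AT E (Ns q s) F)
    (ρ : ℕ → ℂ) (hρ : ∀ u ∈ s, ρ u ≠ 0) :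
    ∃ (k : ℕ) (κ : s → ℂ) (c : Polynomial ℤ → ℂ), 1 ≤ k ∧
      (∀ u : s, κ u = -(2 * Real.pi * I * k * Polynomial.aeval (zt q ^ (q - (u : ℕ))) ξ / ρ u)) ∧
      (∀ u : s, κ u ≠ 0) ∧
      QPS q s (fun u => k * ρ u) κ c (fun z : s → ℂ => F (∑ u : s, (z u / ρ u) • ep q u)) := by
  have hq : 2 ≤ q := by have := hs.three; omega
  obtain ⟨k, hk, hper⟩ := qp_gen hP hF
  have hk0 : (k : ℂ) ≠ 0 := by
    rw [Nat.cast_ne_zero]
    omega
  refine ⟨k, fun u => -(2 * Real.pi * I * k * Polynomial.aeval (zt q ^ (q - (u : ℕ))) ξ / ρ u),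
    fun P => -(Real.pi * I * k ^ 2 * Eb E (va q s (zv fun i : Iq q =>
      (P %ₘ Polynomial.cyclotomic q ℤ).coeff i)) (vs q s (pt q s P))), hk, fun u => rfl, ?_, ?_⟩
  · intro u
    have h1 : (Real.pi : ℂ) ≠ 0 := ofReal_ne_zero.2 Real.pi_ne_zero
    exact neg_ne_zero.2 (div_ne_zero (mul_ne_zero (mul_ne_zero (mul_ne_zero (mul_ne_zero
      two_ne_zero h1) I_ne_zero) hk0) (xi_ne hs hK hP u.2)) (hρ u u.2))
  · intro P z
    obtain ⟨l, hl⟩ : ∃ l : Iq q → ℂ, l = zv fun i : Iq q =>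
      (P %ₘ Polynomial.cyclotomic q ℤ).coeff i := ⟨_, rfl⟩
    have heml : ∀ u, Nat.Coprime u q → em q u l = Polynomial.aeval (zt q ^ u) P := by
      intro u hu
      rw [hl]
      exact int_vec' q (by omega) P u hu
    have hpt : vs q s (pt q s P) = vs q s (fun u => em q u l) := by
      congr 1
      funext u
      rw [heml u (hs.mem u u.2).2.2]
      rfl
    have hsum : l = va q s l + vs q s (pt q s P) := by
      rw [hpt]
      unfold va
      rw [sub_add_cancel]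
    have hw : ∑ u : s, ((z + lamS q s (fun u => k * ρ u) P) u / ρ u) • ep q u =
        vs q s (fun u => z u / ρ u) + (k : ℂ) • vs q s (pt q s P) := by
      rw [← vs_smul, ← vs_add]
      unfold vs
      refine Finset.sum_congr rfl fun u _ => ?_
      congr 1
      have := hρ u u.2
      simp only [Pi.add_apply, Pi.smul_apply, smul_eq_mul, lamS]
      field_simp
    have h5 := hper (fun i : Iq q => (P %ₘ Polynomial.cyclotomic q ℤ).coeff i) (va q s l)
      (vs q s (pt q s P)) (vs q s (fun u => z u / ρ u)) (va_mem hs l) (by rw [← hl]; exact hsum)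
      (Eb_vs_vs hs hK _ _)
    change F (∑ u : s, ((z + lamS q s (fun u => k * ρ u) P) u / ρ u) • ep q u) = _ * F (vs q s
      (fun u => z u / ρ u))
    rw [hw, h5]
    beta_reduce
    rw [← hl]
    congr 3
    rw [Eb_vs hs hK, Finset.mul_sum, ← Finset.sum_neg_distrib]
    refine Finset.sum_congr rfl fun u _ => ?_
    have hU := HS_sub hs u.2
    have hu' := mem_UU.1 hU
    rw [em_va hq s l _ (UU_sub hU), if_neg ((HS_half hs hU).1 u.2),
      heml _ (mem_UU.1 (UU_sub hU)).2, Pool.Agent.Helper93.LX.V_per_conj (by omega) (by omega)]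
    have := hρ u u.2
    simp only [pt]
    field_simp

end

end Pool.Agent.Helper53.SH
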