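import Pool.Agent.Helper49.SH.Df
import Pool.Agent.Helper59.LT.Lat

/-!
PROJECT ALLQ (MP_274814_nt), family side: the coordinates of the field of the `q`-th roots of unity.
-/

set_option autoImplicit false

namespace Pool.Agent.Helper53.SH

open Finset Complex Pool.Agent.Helper34.LT LTG Pool.Agent.Helper34.LU Pool.Agent.Helper49.SH
open Pool.Agent.Helper59.LT (zt_pow zt_prim zt_ne zt_conj)

noncomputable section

theorem em_add (q u : ℕ) (a b : Iq q → ℂ) : em q u (a + b) = em q u a + em q u b := by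
  simp [Pool.Agent.Helper49.SH.em, add_mul, Finset.sum_add_distrib]

theorem em_smul (q u : ℕ) (c : ℂ) (a : Iq q → ℂ) : em q u (c • a) = c * em q u a := by
  simp [Pool.Agent.Helper49.SH.em, Finset.mul_sum, mul_assoc]

theorem em_zero (q u : ℕ) : em q u 0 = 0 := by
  simp [Pool.Agent.Helper49.SH.em]

theorem em_neg (q u : ℕ) (a : Iq q → ℂ) : em q u (-a) = -em q u a := by
  have h := em_smul q u (-1) a
  rwa [neg_one_smul, neg_one_mul] at h

theorem em_sub (q u : ℕ) (a b : Iq q → ℂ) : em q u (a - b) = em q u a - em q u b := by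
  rw [sub_eq_add_neg, em_add, em_neg, ← sub_eq_add_neg]

/-- as a linear map -/
def emL (q u : ℕ) : (Iq q → ℂ) →ₗ[ℂ] ℂ where
  toFun := em q u
  map_add' := em_add q u
  map_smul' := em_smul q u

theorem em_sum (q u : ℕ) {κ : Type} (s : Finset κ) (f : κ → Iq q → ℂ) :
    em q u (∑ i ∈ s, f i) = ∑ i ∈ s, em q u (f i) := map_sum (emL q u) f s

theorem cyc_zero (q u : ℕ) (hq : q ≠ 0) (hu : Nat.Coprime u q) :
    Polynomial.aeval (zt q ^ u) (Polynomial.cyclotomic q ℤ) = 0 := by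
  have h1 := (zt_prim q hq).pow_of_coprime u hu
  have h2 := h1.isRoot_cyclotomic (Nat.pos_of_ne_zero hq)
  rw [Polynomial.IsRoot.def, ← Polynomial.map_cyclotomic_int, Polynomial.eval_map] at h2
  rw [Polynomial.aeval_def]
  exact h2

/-- (a) integral vectors with the embeddings of an element of `ℤ[ζ]` -/
theorem int_vec' (q : ℕ) (hq : q ≠ 0) (P : Polynomial ℤ) (u : ℕ) (hu : Nat.Coprime u q) :
    em q u (zv fun i : Iq q => (P %ₘ Polynomial.cyclotomic q ℤ).coeff i) =
      Polynomial.aeval (zt q ^ u) P := by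
  have hmon := Polynomial.cyclotomic.monic q ℤ
  have h1 : Polynomial.aeval (zt q ^ u) P =
      Polynomial.aeval (zt q ^ u) (P %ₘ Polynomial.cyclotomic q ℤ) := by
    conv_lhs => rw [← Polynomial.modByMonic_add_div P (Polynomial.cyclotomic q ℤ)]
    rw [map_add, map_mul, cyc_zero q u hq hu, zero_mul, add_zero]
  have hd : (P %ₘ Polynomial.cyclotomic q ℤ).natDegree < q.totient := by
    have h2 := Polynomial.natDegree_modByMonic_lt P hmon (by
      intro h3
      have h4 := congrArg Polynomial.natDegree h3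
      rw [Polynomial.natDegree_cyclotomic, Polynomial.natDegree_one] at h4
      exact (Nat.totient_pos.2 (Nat.pos_of_ne_zero hq)).ne' h4)
    rwa [Polynomial.natDegree_cyclotomic] at h2
  rw [h1, Polynomial.aeval_eq_sum_range' hd]
  unfold Pool.Agent.Helper49.SH.em zv
  rw [← Fin.sum_univ_eq_sum_range (fun i => (P %ₘ Polynomial.cyclotomic q ℤ).coeff i •
    (zt q ^ u) ^ i)]
  refine Finset.sum_congr rfl fun i _ => ?_
  rw [zsmul_eq_mul, pow_mul]

theorem int_vec (q : ℕ) (hq : q ≠ 0) (P : Polynomial ℤ) :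
    ∃ l : Iq q → ℤ, ∀ u, Nat.Coprime u q → em q u (zv l) = Polynomial.aeval (zt q ^ u) P :=
  ⟨_, fun u hu => int_vec' q hq P u hu⟩

theorem card_UU (q : ℕ) (hq : 2 ≤ q) : (UU q).card = q.totient := by
  rw [Nat.totient_eq_card_coprime]
  congr 1
  ext u
  rw [mem_UU, mem_filter, mem_range]
  constructor
  · rintro ⟨⟨h1, h2⟩, h3⟩
    exact ⟨by omega, h3.symm⟩
  · rintro ⟨h1, h2⟩
    refine ⟨⟨?_, by omega⟩, h2.symm⟩
    by_contra h3
    have h4 : u = 0 := by omega
    subst h4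
    rw [Nat.coprime_zero_right] at h2
    omega

theorem UU_sub {q u : ℕ} (hu : u ∈ UU q) : q - u ∈ UU q := by
  obtain ⟨⟨h1, h2⟩, h3⟩ := mem_UU.1 hu
  exact mem_UU.2 ⟨⟨by omega, by omega⟩, (Nat.coprime_self_sub_left (by omega)).2 h3⟩

theorem UU_sub_sub {q u : ℕ} (hu : u ∈ UU q) : q - (q - u) = u := by
  obtain ⟨⟨h1, h2⟩, h3⟩ := mem_UU.1 hu
  omega

/-- (b) the embeddings separate the vectors -/
theorem em_inj (q : ℕ) (hq : 2 ≤ q) (w : Iq q → ℂ) (h : ∀ u ∈ UU q, em q u w = 0) : w = 0 := by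
  classical
  obtain ⟨p, hp⟩ : ∃ p : Polynomial ℂ, p = ∑ i : Iq q, Polynomial.C (w i) * Polynomial.X ^ (i : ℕ) :=
    ⟨_, rfl⟩
  have hφ : 0 < q.totient := Nat.totient_pos.2 (by omega)
  have hcoeff : ∀ i : Iq q, p.coeff i = w i := by
    intro i
    rw [hp, Polynomial.finsetSum_coeff, Finset.sum_eq_single i]
    · rw [Polynomial.coeff_C_mul, Polynomial.coeff_X_pow, if_pos rfl, mul_one]
    · intro j _ hj
      rw [Polynomial.coeff_C_mul, Polynomial.coeff_X_pow, if_neg, mul_zero]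
      intro h1
      exact hj (Fin.ext h1.symm)
    · intro h1
      exact absurd (Finset.mem_univ i) h1
  have hdeg : p.natDegree < q.totient := by
    rw [hp]
    refine lt_of_le_of_lt (Polynomial.natDegree_sum_le_of_forall_le _ _ (n := q.totient - 1)
      fun i _ => ?_) (by omega)
    refine (Polynomial.natDegree_C_mul_X_pow_le _ _).trans ?_
    have := i.2
    omega
  have heval : ∀ u ∈ UU q, p.eval (zt q ^ u) = 0 := by
    intro u hu
    rw [← h u hu, hp, Polynomial.eval_finsetSum]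
    unfold Pool.Agent.Helper49.SH.em
    refine Finset.sum_congr rfl fun i _ => ?_
    rw [Polynomial.eval_mul, Polynomial.eval_C, Polynomial.eval_pow, Polynomial.eval_X, pow_mul]
  have hp0 : p = 0 := by
    refine Polynomial.eq_zero_of_natDegree_lt_card_of_eval_eq_zero' p ((UU q).image fun u =>
      zt q ^ u) ?_ ?_
    · intro x hx
      obtain ⟨u, hu, rfl⟩ := Finset.mem_image.1 hx
      exact heval u hu
    · rw [Finset.card_image_of_injOn, card_UU q hq]
      · exact hdeg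
      · intro u hu v hv huv
        have hu' := (mem_UU.1 (Finset.mem_coe.1 hu)).1
        have hv' := (mem_UU.1 (Finset.mem_coe.1 hv)).1
        exact (zt_prim q (by omega)).pow_inj (by omega) (by omega) huv
  funext i
  rw [← hcoeff i, hp0, Polynomial.coeff_zero, Pi.zero_apply]

theorem exists_eps (q : ℕ) (hq : 2 ≤ q) (u : ℕ) : ∃ ε, IsEps q u ε := by
  classical
  let f : (Iq q → ℂ) →ₗ[ℂ] (UU q → ℂ) := LinearMap.pi fun v => emL q v
  have hf : Function.Injective f := by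
    rw [← LinearMap.ker_eq_bot, LinearMap.ker_eq_bot']
    intro w hw
    exact em_inj q hq w fun v hv => congrFun hw ⟨v, hv⟩
  have hs : Function.Surjective f := by
    refine (LinearMap.injective_iff_surjective_of_finrank_eq_finrank ?_).1 hf
    rw [Module.finrank_fintype_fun_eq_card, Module.finrank_fintype_fun_eq_card, Fintype.card_fin,
      Fintype.card_coe, card_UU q hq]
  obtain ⟨ε, hε⟩ := hs fun v => if (v : ℕ) = u then 1 else 0
  exact ⟨ε, fun v hv => congrFun hε ⟨v, hv⟩⟩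

open Classical in
/-- the vector with embeddings `δ_{uv}` -/
def ep (q u : ℕ) : Iq q → ℂ := if h : ∃ ε, IsEps q u ε then h.choose else 0

theorem ep_spec (q : ℕ) (hq : 2 ≤ q) (u : ℕ) : IsEps q u (ep q u) := by
  have h := exists_eps q hq u
  unfold ep
  rw [dif_pos h]
  exact h.choose_spec

theorem ep_unique (q : ℕ) (hq : 2 ≤ q) (u : ℕ) (ε : Iq q → ℂ) (h : IsEps q u ε) : ε = ep q u := by
  have h1 : ε - ep q u = 0 := em_inj q hq _ fun v hv => by
    rw [em_sub, h v hv, ep_spec q hq u v hv, sub_self]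
  exact sub_eq_zero.1 h1

theorem em_ext (q : ℕ) (hq : 2 ≤ q) (w w' : Iq q → ℂ) (h : ∀ u ∈ UU q, em q u w = em q u w') :
    w = w' := by
  refine sub_eq_zero.1 (em_inj q hq _ fun v hv => ?_)
  rw [em_sub, h v hv, sub_self]

theorem em_sum_ep (q : ℕ) (hq : 2 ≤ q) (c : ℕ → ℂ) (s : Finset ℕ) (v : ℕ) (hv : v ∈ UU q) :
    em q v (∑ u ∈ s, c u • ep q u) = if v ∈ s then c v else 0 := by
  classical
  rw [em_sum]
  simp_rw [em_smul]
  by_cases h : v ∈ s
  · rw [if_pos h, Finset.sum_eq_single v]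
    · rw [ep_spec q hq v v hv, if_pos rfl, mul_one]
    · intro u _ hu
      rw [ep_spec q hq u v hv, if_neg (Ne.symm hu), mul_zero]
    · intro h1
      exact absurd h h1
  · rw [if_neg h]
    refine Finset.sum_eq_zero fun u hu => ?_
    rw [ep_spec q hq u v hv, if_neg, mul_zero]
    rintro rfl
    exact h hu

theorem eq_sum_ep (q : ℕ) (hq : 2 ≤ q) (w : Iq q → ℂ) :
    w = ∑ u ∈ UU q, em q u w • ep q u := by
  refine em_ext q hq _ _ fun v hv => ?_
  rw [em_sum_ep q hq (fun u => em q u w) _ v hv, if_pos hv]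

theorem zt_sub_pow (q u i : ℕ) (hq : q ≠ 0) (hu : u ≤ q) :
    zt q ^ ((q - u) * i) = (starRingEnd ℂ) (zt q ^ (u * i)) := by
  have h1 : zt q ^ ((q - u) * i) * zt q ^ (u * i) = 1 := by
    rw [← pow_add, ← add_mul, Nat.sub_add_cancel hu, pow_mul, zt_pow q hq, one_pow]
  rw [map_pow, zt_conj q hq, inv_pow]
  exact eq_inv_of_mul_eq_one_left h1

theorem em_cj (q u : ℕ) (hq : q ≠ 0) (hu : u ≤ q) (w : Iq q → ℂ) :
    em q (q - u) (cj w) = (starRingEnd ℂ) (em q u w) := by
  unfold Pool.Agent.Helper49.SH.em cj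
  rw [map_sum]
  refine Finset.sum_congr rfl fun i _ => ?_
  rw [map_mul, zt_sub_pow q u i hq hu]

theorem cj_ep (q u : ℕ) (hq : 2 ≤ q) (hu : u ∈ UU q) : cj (ep q u) = ep q (q - u) := by
  refine em_ext q hq _ _ fun v hv => ?_
  have hv' := (mem_UU.1 hv).1
  have hu' := (mem_UU.1 hu).1
  have h1 := em_cj q (q - v) (by omega) (by omega) (ep q u)
  rw [UU_sub_sub hv] at h1
  rw [h1, ep_spec q hq u _ (UU_sub hv), ep_spec q hq (q - u) v hv]
  by_cases h : v = q - u
  · rw [if_pos h, if_pos (by omega), map_one]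
  · rw [if_neg h, if_neg (by omega), map_zero]

/-! ### multiplication by `ζ` -/

/-- the matrix of multiplication by `ζ` -/
def zM (q : ℕ) : Iq q → Iq q → ℚ :=
  fun i j => (((Polynomial.X ^ ((j : ℕ) + 1) : Polynomial ℤ) %ₘ
    Polynomial.cyclotomic q ℤ).coeff (i : ℕ) : ℤ)

theorem em_zM (q u : ℕ) (hq : q ≠ 0) (hu : Nat.Coprime u q) (w : Iq q → ℂ) :
    em q u (mv (zM q) w) = zt q ^ u * em q u w := by
  have h1 : ∀ j : Iq q, ∑ i : Iq q, ((zM q i j : ℚ) : ℂ) * zt q ^ (u * (i : ℕ)) =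
      zt q ^ (u * ((j : ℕ) + 1)) := by
    intro j
    have h2 := int_vec' q hq (Polynomial.X ^ ((j : ℕ) + 1)) u hu
    rw [map_pow, Polynomial.aeval_X, ← pow_mul] at h2
    rw [← h2]
    unfold Pool.Agent.Helper49.SH.em zv zM
    refine Finset.sum_congr rfl fun i _ => ?_
    push_cast
    rfl
  unfold Pool.Agent.Helper49.SH.em mv
  simp_rw [Finset.sum_mul]
  rw [Finset.sum_comm, Finset.mul_sum]
  refine Finset.sum_congr rfl fun j _ => ?_
  have h3 : ∑ x : Iq q, ((zM q x j : ℚ) : ℂ) * w j * zt q ^ (u * (x : ℕ)) =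
      w j * ∑ x : Iq q, ((zM q x j : ℚ) : ℂ) * zt q ^ (u * (x : ℕ)) := by
    rw [Finset.mul_sum]
    exact Finset.sum_congr rfl fun x _ => by ring
  rw [h3, h1 j, mul_add, pow_add, mul_one]
  ring

/-- unit vector -/
def ue {ι : Type} [DecidableEq ι] (i : ι) : ι → ℂ := Pi.single i 1

theorem Eb_ue {ι : Type} [Fintype ι] [DecidableEq ι] (E : ι → ι → ℚ) (i j : ι) :
    Eb E (ue i) (ue j) = E i j := by
  unfold Eb ue
  rw [Finset.sum_eq_single i, Finset.sum_eq_single j]
  · simp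
  · intro k _ hk
    simp [Pi.single_eq_of_ne hk]
  · intro h
    exact absurd (Finset.mem_univ j) h
  · intro k _ hk
    refine Finset.sum_eq_zero fun l _ => ?_
    simp [Pi.single_eq_of_ne hk]
  · intro h
    exact absurd (Finset.mem_univ i) h

theorem form_ext {ι : Type} [Fintype ι] (E E' : ι → ι → ℚ) (h : ∀ w w', Eb E w w' = Eb E' w w') :
    E = E' := by
  classical
  funext i j
  have h1 := h (ue i) (ue j)
  rw [Eb_ue, Eb_ue] at h1
  exact_mod_cast h1

theorem Eb_pb {ι ι' : Type} [Fintype ι] [Fintype ι'] (E : ι → ι → ℚ) (M : ι → ι' → ℚ)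
    (w w' : ι' → ℂ) : Eb (pb E M) w w' = Eb E (mv M w) (mv M w') := by
  have e1 : Eb (pb E M) w w' = ∑ i', ∑ j', ∑ i, ∑ j,
      ((E i j : ℂ) * (M i i' : ℂ) * (M j j' : ℂ)) * w i' * w' j' := by
    unfold Eb pb
    refine Finset.sum_congr rfl fun i' _ => Finset.sum_congr rfl fun j' _ => ?_
    push_cast
    rw [Finset.sum_mul, Finset.sum_mul]
    refine Finset.sum_congr rfl fun i _ => ?_
    rw [Finset.sum_mul, Finset.sum_mul]
  have e2 : Eb E (mv M w) (mv M w') = ∑ i, ∑ j, ∑ i', ∑ j',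
      ((E i j : ℂ) * (M i i' : ℂ) * (M j j' : ℂ)) * w i' * w' j' := by
    unfold Eb mv
    refine Finset.sum_congr rfl fun i _ => Finset.sum_congr rfl fun j _ => ?_
    rw [mul_assoc, Finset.sum_mul_sum, Finset.mul_sum]
    refine Finset.sum_congr rfl fun i' _ => ?_
    rw [Finset.mul_sum]
    refine Finset.sum_congr rfl fun j' _ => ?_
    ring
  rw [e1, e2]
  calc ∑ i', ∑ j', ∑ i, ∑ j, ((E i j : ℂ) * (M i i' : ℂ) * (M j j' : ℂ)) * w i' * w' j'
      = ∑ i', ∑ i, ∑ j', ∑ j, ((E i j : ℂ) * (M i i' : ℂ) * (M j j' : ℂ)) * w i' * w' j' :=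
        Finset.sum_congr rfl fun i' _ => Finset.sum_comm
    _ = ∑ i, ∑ i', ∑ j', ∑ j, ((E i j : ℂ) * (M i i' : ℂ) * (M j j' : ℂ)) * w i' * w' j' :=
        Finset.sum_comm
    _ = ∑ i, ∑ i', ∑ j, ∑ j', ((E i j : ℂ) * (M i i' : ℂ) * (M j j' : ℂ)) * w i' * w' j' :=
        Finset.sum_congr rfl fun i _ => Finset.sum_congr rfl fun i' _ => Finset.sum_comm
    _ = ∑ i, ∑ j, ∑ i', ∑ j', ((E i j : ℂ) * (M i i' : ℂ) * (M j j' : ℂ)) * w i' * w' j' :=
        Finset.sum_congr rfl fun i _ => Finset.sum_comm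

/-- (d) `ζ` is an isometry of every form `Tr(ξ x conj y)` -/
theorem pb_zM (q : ℕ) (hq : q ≠ 0) (ξ : Polynomial ℚ) (E : Iq q → Iq q → ℚ) (h : KForm q ξ E) :
    pb E (zM q) = E := by
  refine form_ext _ _ fun w w' => ?_
  rw [Eb_pb, h, h]
  refine Finset.sum_congr rfl fun u hu => ?_
  have hu' := mem_UU.1 hu
  have hv' := mem_UU.1 (UU_sub hu)
  rw [em_zM q u hq hu'.2, em_zM q (q - u) hq hv'.2]
  have h1 : zt q ^ u * zt q ^ (q - u) = 1 := by
    rw [← pow_add, Nat.add_sub_cancel' (by omega), zt_pow q hq]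
  linear_combination (Polynomial.aeval (zt q ^ u) ξ * em q u w * em q (q - u) w') * h1

theorem comap_zM (q : ℕ) (s : Finset ℕ) (hs : HS q s) :
    (Ns q s).comap (mvL (zM q)) = Ns q s := by
  have h3 := hs.three
  ext w
  rw [Submodule.mem_comap]
  change (∀ u ∈ s, em q u (mv (zM q) w) = 0) ↔ ∀ u ∈ s, em q u w = 0
  refine forall₂_congr fun u hu => ?_
  rw [em_zM q u (by omega) (hs.mem u hu).2.2, mul_eq_zero, or_iff_right]
  exact pow_ne_zero _ (zt_ne q)

end

end Pool.Agent.Helper53.SH
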