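import Pool.Agent.Helper93.SH.Vb
import Pool.Agent.Helper93.SH.Vd
import Pool.Agent.Helper3.SE.Vf

/-!
PROJECT ALLQ (MP_274814_nt), block E5: the evaluation theorem, general lemma: the quotient of two
theta functions of the same weight with algebraic Taylor coefficients has algebraic values at the
torsion points.
-/

set_option autoImplicit false

namespace Pool.Agent.Helper53.SH.Ev

open Finset Complex Filter Topology
open Pool.Agent.Helper13.LT (PS adg mem_adg cv)
open Pool.Agent.Helper96.LU (gb ps_gb ps_shift)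
open Pool.Agent.Helper93.SH

noncomputable section

variable {ι : Type} [Fintype ι] {B : (ι → ℂ) → (ι → ℂ) → ℂ}

theorem B_sub_right (hB : HB B) (x y z : ι → ℂ) : B x (y - z) = B x y - B x z := by
  rw [sub_eq_add_neg, ← neg_one_smul ℂ z, hB.add_right, hB.smul_right]
  ring

theorem B_symm (hB : HB B) (x y : ι → ℂ) : (B x y).re = (B y x).re := by
  have h1 := hB.real (x + I • y)
  rw [hB.add_left, hB.add_right, hB.add_right, hB.smul_left, hB.smul_left, hB.smul_right,
    hB.smul_right] at h1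
  simp only [conj_I, add_im, mul_im, neg_re, neg_im, I_re, I_im, neg_mul, one_mul, zero_mul,
    neg_zero, zero_add, mul_re, zero_sub, sub_neg_eq_add, neg_neg, hB.real x, hB.real y, add_zero,
    zero_add] at h1
  linarith

theorem sum_single [DecidableEq ι] (x : ι → ℂ) : x = ∑ u, x u • (Pi.single u 1 : ι → ℂ) := by
  funext w
  rw [Finset.sum_apply, Finset.sum_eq_single w]
  · simp
  · intro b _ hb
    simp [Pi.single_eq_of_ne (Ne.symm hb)]
  · intro h
    exact absurd (mem_univ w) h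

theorem B_left [DecidableEq ι] (hB : HB B) (x z : ι → ℂ) :
    B x z = ∑ u, (starRingEnd ℂ) (x u) * B (Pi.single u 1) z := by
  have h1 := map_sum (AddMonoidHom.mk' (fun x => B x z) fun x y => hB.add_left x y z)
    (fun u => x u • (Pi.single u 1 : ι → ℂ)) univ
  rw [← sum_single x] at h1
  simp only [AddMonoidHom.mk'_apply, hB.smul_left] at h1
  exact h1

theorem B_right [DecidableEq ι] (hB : HB B) (x z : ι → ℂ) :
    B x z = ∑ u, z u * B x (Pi.single u 1) := by
  have h1 := map_sum (AddMonoidHom.mk' (fun z => B x z) fun y z => hB.add_right x y z)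
    (fun u => z u • (Pi.single u 1 : ι → ℂ)) univ
  rw [← sum_single z] at h1
  simp only [AddMonoidHom.mk'_apply, hB.smul_right] at h1
  exact h1

theorem B_cont (hB : HB B) : Continuous fun x : ι → ℂ => B x x := by
  classical
  have h1 : (fun x : ι → ℂ => B x x) = fun x => ∑ u, (starRingEnd ℂ) (x u) *
      ∑ v, x v * B (Pi.single u 1) (Pi.single v 1) := by
    funext x
    rw [B_left hB]
    refine sum_congr rfl fun u _ => ?_
    rw [B_right hB (Pi.single u 1) x]
  rw [h1]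
  refine continuous_finsetSum _ fun u _ => (continuous_conj.comp (continuous_apply u)).mul ?_
  exact continuous_finsetSum _ fun v _ => (continuous_apply v).mul continuous_const

/-- the multiplier -/
def J (B : (ι → ℂ) → (ι → ℂ) → ℂ) (l z : ι → ℂ) : ℂ := exp (2 * B l z + B l l)

/-- functions of weight `N` -/
def Wt (B : (ι → ℂ) → (ι → ℂ) → ℂ) (L : AddSubgroup (ι → ℂ)) (N : ℕ) (g : (ι → ℂ) → ℂ) : Prop :=
  ∀ l ∈ L, ∀ z, g (z + l) = J B l z ^ N * g z

variable {L : AddSubgroup (ι → ℂ)} {M N : ℕ} {g h : (ι → ℂ) → ℂ}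

theorem Wt.mul (hg : Wt B L M g) (hh : Wt B L N h) : Wt B L (M + N) fun z => g z * h z := by
  intro l hl z
  beta_reduce
  rw [hg l hl, hh l hl, pow_add]
  ring

theorem Wt.pow (hg : Wt B L M g) (k : ℕ) : Wt B L (M * k) fun z => g z ^ k := by
  intro l hl z
  beta_reduce
  rw [hg l hl, mul_pow, pow_mul]

theorem Wt.sub (hg : Wt B L N g) (hh : Wt B L N h) : Wt B L N fun z => g z - h z := by
  intro l hl z
  beta_reduce
  rw [hg l hl, hh l hl, mul_sub]

theorem J_scale (hB : HB B) (n : ℕ) (l z : ι → ℂ) :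
    J B ((n : ℂ) • l) ((n : ℂ) • z) = J B l z ^ (n ^ 2) := by
  unfold J
  rw [← exp_nat_mul, hB.smul_left, hB.smul_left, hB.smul_right, hB.smul_right]
  congr 1
  rw [conj_natCast]
  push_cast
  ring

theorem Wt.scale (hB : HB B) (hg : Wt B L N g) (n : ℕ) :
    Wt B L (n ^ 2 * N) fun z => g ((n : ℂ) • z) := by
  intro l hl z
  have h1 : (n : ℂ) • l ∈ L := by
    have h2 := L.nsmul_mem hl n
    rwa [← Nat.cast_smul_eq_nsmul ℂ] at h2
  beta_reduce
  rw [smul_add, hg _ h1, J_scale hB, pow_mul]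

/-- reduction to a compact set -/
theorem wt_red (hB : HB B) (M : ℕ) {R : ℝ} (hR : ∀ z, ∃ l ∈ L, ‖z - l‖ ≤ R) (x : ι → ℂ) :
    ∃ y ∈ Metric.closedBall (0 : ι → ℂ) R, ∃ j : ℂ, (∀ g, Wt B L M g → g x = j * g y) ∧
      ‖j‖ * Real.exp (-(M * (B x x).re)) ≤ Real.exp (-(M * (B y y).re)) := by
  obtain ⟨l, hl, hlR⟩ := hR x
  refine ⟨x - l, by rw [mem_closedBall_zero_iff]; exact hlR, J B l (x - l) ^ M, ?_, ?_⟩
  · intro g hg
    have h1 := hg l hl (x - l)
    rwa [sub_add_cancel] at h1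
  · obtain ⟨y, hy⟩ : ∃ y, y = x - l := ⟨_, rfl⟩
    have hx : x = y + l := by rw [hy, sub_add_cancel]
    rw [← hy, hx, norm_pow]
    unfold J
    rw [norm_exp, ← Real.exp_nat_mul, ← Real.exp_add]
    refine le_of_eq ?_
    congr 1
    rw [hB.add_left, hB.add_right, hB.add_right]
    have h2 := B_symm hB l y
    have e1 : (2 * B l y + B l l).re = 2 * (B l y).re + (B l l).re := by
      simp
    rw [e1]
    simp only [add_re]
    rw [h2]
    ring

theorem D3_wt (hB : HB B) {φ : (ι → ℕ) → ℂ} {f : (ι → ℂ) → ℂ} (hφ : PS φ f)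
    (hf : Wt B L 1 f) (m : ι → ℕ) : Wt B L 3 (D3 φ m) := by
  intro l hl z
  have h1 : ∀ w : ι → ℂ, f (z + l + (2 : ℂ) • w) * f (z + l - w) * f (z + l - w) =
      J B l z ^ 3 * (f (z + (2 : ℂ) • w) * f (z - w) * f (z - w)) := by
    intro w
    have e1 : z + l + (2 : ℂ) • w = (z + (2 : ℂ) • w) + l := by abel
    have e2 : z + l - w = (z - w) + l := by abel
    have e3 : J B l (z + (2 : ℂ) • w) * J B l (z - w) * J B l (z - w) = J B l z ^ 3 := by
      unfold J
      rw [← exp_nat_mul, ← exp_add, ← exp_add, hB.add_right, hB.smul_right, B_sub_right hB]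
      congr 1
      push_cast
      ring
    rw [e1, e2, hf l hl, hf l hl, pow_one, pow_one, ← e3]
    ring
  have h2 := ps_D3 hφ (z + l)
  have h3 := (ps_D3 hφ z).smul (J B l z ^ 3)
  rw [funext h1] at h2
  exact congrFun (h2.unique h3) m

/-- the core -/
theorem eval_core (hB : HB B) {φ : (ι → ℕ) → ℂ} {f : (ι → ℂ) → ℂ} (hφ : PS φ f)
    (hφa : ∀ m, IsAlgebraic ℚ (φ m)) (hf : Wt B L 1 f)
    (hco : ∃ R : ℝ, ∀ z, ∃ l ∈ L, ‖z - l‖ ≤ R) {n : ℕ} (hn : 2 ≤ n) {p : ι → ℂ}
    (hp : ((n : ℂ) - 1) • p ∈ L) (hne : f p ≠ 0)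
    (himm : ∀ v : ι → ℂ, (∀ m, HasDerivAt (fun t : ℂ => D3 φ m (p + t • v) /
      f (p + t • v) ^ 3) 0 0) → v = 0)
    {g : (ι → ℂ) → ℂ} (hg : AE g) (N : ℕ) (hgw : Wt B L N g) :
    IsAlgebraic ℚ (g p / f p ^ N) := by
  classical
  obtain ⟨R, hR⟩ := hco
  have hfae : AE f := ⟨φ, hφ, hφa⟩
  have hfd : Differentiable ℂ f := hφ.diff
  have hDd : ∀ m, Differentiable ℂ (D3 φ m) := fun m => (AE_D3 hφ hφa m).diff
  obtain ⟨l0, hl0⟩ : ∃ l0, l0 = ((n : ℂ) - 1) • p := ⟨_, rfl⟩
  rw [← hl0] at hp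
  have hnp : (n : ℂ) • p = p + l0 := by
    rw [hl0, sub_smul, one_smul]
    abel
  have hJ0 : ∀ l z, J B l z ≠ 0 := fun l z => exp_ne_zero _
  -- choice of the coordinates
  obtain ⟨m, hm⟩ := Pool.Agent.Helper3.SE.exists_family
    (fun a : ι → ℕ => ((f p • fderiv ℂ (D3 φ a) p - (3 * D3 φ a p) • fderiv ℂ f p :
      (ι → ℂ) →L[ℂ] ℂ) : (ι → ℂ) →ₗ[ℂ] ℂ)) (by
    intro v hv
    refine himm v fun a => ?_
    have h1 := (hasDerivAt_line (hDd a) p v).div ((hasDerivAt_line hfd p v).pow 3)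
      (by simpa using hne)
    refine h1.congr_deriv ?_
    have h2 := hv a
    simp only [ContinuousLinearMap.coe_coe, ContinuousLinearMap.sub_apply,
      ContinuousLinearMap.smul_apply, smul_eq_mul] at h2
    simp only [zero_smul, add_zero, Pi.pow_apply]
    rw [div_eq_zero_iff]
    left
    push_cast
    linear_combination f p ^ 2 * h2)
  have hm' : ∀ v : ι → ℂ, (∀ k, f p * fderiv ℂ (D3 φ (m k)) p v -
      3 * D3 φ (m k) p * fderiv ℂ f p v = 0) → v = 0 := by
    intro v hv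
    refine hm v fun k => ?_
    simp only [ContinuousLinearMap.coe_coe, ContinuousLinearMap.sub_apply,
      ContinuousLinearMap.smul_apply, smul_eq_mul]
    exact hv k
  -- the functions
  obtain ⟨F0, hF0⟩ : ∃ F0 : (ι → ℂ) → ℂ, F0 = fun z => f z ^ N * (f z ^ 3 *
    f ((n : ℂ) • z) ^ 3) := ⟨_, rfl⟩
  obtain ⟨F, hF⟩ : ∃ F : ι → (ι → ℂ) → ℂ, F = fun k z => f z ^ N *
    (D3 φ (m k) ((n : ℂ) • z) * f z ^ 3 - D3 φ (m k) z * f ((n : ℂ) • z) ^ 3) := ⟨_, rfl⟩
  obtain ⟨G, hG⟩ : ∃ G : (ι → ℂ) → ℂ, G = fun z => g z * (f z ^ 3 *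
    f ((n : ℂ) • z) ^ 3) := ⟨_, rfl⟩
  have aF0 : AE F0 := by
    rw [hF0]
    exact (hfae.pow N).mul ((hfae.pow 3).mul ((hfae.scale n).pow 3))
  have aF : ∀ k, AE (F k) := by
    intro k
    rw [hF]
    exact (hfae.pow N).mul ((((AE_D3 hφ hφa (m k)).scale n).mul (hfae.pow 3)).sub
      ((AE_D3 hφ hφa (m k)).mul ((hfae.scale n).pow 3)))
  have aG : AE G := by
    rw [hG]
    exact hg.mul ((hfae.pow 3).mul ((hfae.scale n).pow 3))
  obtain ⟨W, hW⟩ : ∃ W : ℕ, W = N + (3 + n ^ 2 * 3) := ⟨_, rfl⟩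
  have w1 : Wt B L N fun z => f z ^ N := by
    have h1 := hf.pow N
    rwa [one_mul] at h1
  have w3 : Wt B L 3 fun z => f z ^ 3 := hf.pow 3
  have wn3 : Wt B L (n ^ 2 * 3) fun z => f ((n : ℂ) • z) ^ 3 := by
    have h1 := (hf.scale hB n).pow 3
    rwa [mul_one] at h1
  have wF0 : Wt B L W F0 := by
    rw [hW, hF0]
    exact w1.mul (w3.mul wn3)
  have wG : Wt B L W G := by
    rw [hW, hG]
    exact hgw.mul (w3.mul wn3)
  have wF : ∀ k, Wt B L W (F k) := by
    intro k
    rw [hW, hF]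
    refine w1.mul (Wt.sub ?_ ((D3_wt hB hφ hf (m k)).mul wn3))
    have h1 := ((D3_wt hB hφ hf (m k)).scale hB n).mul w3
    rwa [add_comm] at h1
  -- Siegel
  obtain ⟨Q, hQ, hQa, hz⟩ := siegel_taylor (κ := Option ι) (by rw [Fintype.card_option])
    (f0 := F0) (f := fun o => o.elim G F) aF0 (fun o => by
      cases o with
      | none => exact aG
      | some k => exact aF k)
    (ρ := fun x => Real.exp (-(W * (B x x).re)))
    (Real.continuous_exp.comp ((continuous_const.mul (continuous_re.comp (B_cont hB))).neg))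
    (fun x => Real.exp_pos _) (isCompact_closedBall (0 : ι → ℂ) R) (fun x => by
      obtain ⟨y, hy, j, h1, h2⟩ := wt_red (L := L) hB W hR x
      refine ⟨y, hy, j, h1 F0 wF0, fun o => ?_, h2⟩
      cases o with
      | none => exact h1 G wG
      | some k => exact h1 (F k) (wF k))
  have hfn : f ((n : ℂ) • p) = J B l0 p * f p := by
    rw [hnp, hf l0 hp, pow_one]
  have hF0p : F0 p ≠ 0 := by
    rw [hF0]
    exact mul_ne_zero (pow_ne_zero _ hne) (mul_ne_zero (pow_ne_zero _ hne)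
      (pow_ne_zero _ (by rw [hfn]; exact mul_ne_zero (hJ0 _ _) hne)))
  have hFd : ∀ k (v : ι → ℂ), ∃ c : ℂ, c ≠ 0 ∧ fderiv ℂ (F k) p v =
      c * (f p * fderiv ℂ (D3 φ (m k)) p v - 3 * D3 φ (m k) p * fderiv ℂ f p v) := by
    intro k v
    refine ⟨(f p ^ N * J B l0 p ^ 3) * (((n : ℂ) - 1) * f p ^ 2), ?_, ?_⟩
    · refine mul_ne_zero (mul_ne_zero (pow_ne_zero _ hne) (pow_ne_zero _ (hJ0 _ _)))
        (mul_ne_zero ?_ (pow_ne_zero _ hne))
      intro h1
      have h2 : (n : ℂ) = 1 := sub_eq_zero.1 h1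
      have h3 : n = 1 := by exact_mod_cast h2
      omega
    · obtain ⟨v', hv'⟩ : ∃ v' : ι → ℂ, v' = (n : ℂ) • v := ⟨_, rfl⟩
      have e1 : ∀ t : ℂ, (n : ℂ) • (p + t • v) = (p + t • v') + l0 := by
        intro t
        rw [smul_add, hnp, hv', smul_smul, smul_smul, mul_comm (n : ℂ) t]
        abel
      have hJt : ∀ t : ℂ, J B l0 (p + t • v') =
          exp (2 * (B l0 p + t * B l0 v') + B l0 l0) := by
        intro t
        unfold J
        rw [hB.add_right, hB.smul_right]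
      have e2 : (fun t : ℂ => F k (p + t • v)) = fun t : ℂ =>
          (f (p + t • v) ^ N * exp (2 * (B l0 p + t * B l0 v') + B l0 l0) ^ 3) *
          (D3 φ (m k) (p + t • v') * f (p + t • v) ^ 3 -
            D3 φ (m k) (p + t • v) * f (p + t • v') ^ 3) := by
        funext t
        rw [hF]
        beta_reduce
        rw [e1 t, D3_wt hB hφ hf (m k) l0 hp, hf l0 hp, ← hJt t]
        ring
      have d1 := hasDerivAt_line hfd p v
      have d2 := hasDerivAt_line hfd p v'
      have d3 := hasDerivAt_line (hDd (m k)) p v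
      have d4 := hasDerivAt_line (hDd (m k)) p v'
      have d5 := (d4.mul (d1.pow 3)).sub (d3.mul (d2.pow 3))
      have d6 : DifferentiableAt ℂ (fun t : ℂ => f (p + t • v) ^ N *
          exp (2 * (B l0 p + t * B l0 v') + B l0 l0) ^ 3) 0 := by
        refine (d1.differentiableAt.pow N).mul (DifferentiableAt.pow ?_ 3)
        refine DifferentiableAt.cexp ?_
        exact (((differentiableAt_id.mul_const (B l0 v')).const_add (B l0 p)).const_mul 2).add_const _
      have d7 := d6.hasDerivAt.mul d5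
      have d8 := hasDerivAt_line (aF k).diff p v
      rw [e2] at d8
      have d9 := d8.unique d7
      rw [d9]
      have hv1 : fderiv ℂ f p v' = n * fderiv ℂ f p v := by
        rw [hv', map_smul, smul_eq_mul]
      have hv2 : fderiv ℂ (D3 φ (m k)) p v' = n * fderiv ℂ (D3 φ (m k)) p v := by
        rw [hv', map_smul, smul_eq_mul]
      have hJp : exp (2 * (B l0 p + 0 * B l0 v') + B l0 l0) = J B l0 p := by
        unfold J
        rw [zero_mul, add_zero]
      simp only [zero_smul, add_zero, Pi.pow_apply, Pi.sub_apply, Pi.mul_apply, hJp, hv1, hv2]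
      push_cast
      ring
  have hFp : ∀ k, F k p = 0 := by
    intro k
    rw [hF]
    beta_reduce
    rw [hfn, hnp, D3_wt hB hφ hf (m k) l0 hp]
    ring
  have key := Pool.Agent.Helper3.SE.eval_step aF0.diff aG.diff (fun k => (aF k).diff) Q hQ hQa
    (by
      intro x hx
      have h1 := hz x hx
      have h2 : (fun o : Option ι => o.elim (G x / F0 x) fun k => F k x / F0 x) =
          fun k => (k.elim G F : (ι → ℂ) → ℂ) x / F0 x := by
        funext o
        cases o with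
        | none => rfl
        | some k => rfl
      rw [h2]
      exact h1) hF0p hFp (by
      intro v hv
      refine hm' v fun k => ?_
      obtain ⟨c, hc, h1⟩ := hFd k v
      rw [hv k] at h1
      exact (mul_eq_zero.1 h1.symm).resolve_left hc)
  have h1 : G p / F0 p = g p / f p ^ N := by
    rw [hG, hF0]
    beta_reduce
    have h2 : f ((n : ℂ) • p) ≠ 0 := by
      rw [hfn]
      exact mul_ne_zero (hJ0 _ _) hne
    field_simp
  rw [← h1]
  exact key

end

end Pool.Agent.Helper53.SH.Ev
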